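import Pool.Agent.Helper41.KV.GoalsD

/-!
# Project KV (`MP_66be51_an`), packet L2C: convergence in `L^2` and mass
-/

namespace Pool.Agent.Helper41.KV

open Real MeasureTheory Pool.Agent.Helper33.KV

namespace L2Caux

lemma int_scale (g : ℝ → ℝ) {s l : ℝ} (hl : 0 < l) :
    ∫ x, (1 / l) * g ((x - s) / l) = ∫ y, g y := by
  have h1 : ∫ x, g ((x - s) / l) = l * ∫ y, g y := by
    have h0 := integral_sub_right_eq_self (μ := (volume : Measure ℝ)) (fun x => g (x / l)) s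
    have h2 := Measure.integral_comp_div g l
    rw [abs_of_pos hl, smul_eq_mul] at h2
    rw [← h2]
    exact h0
  rw [integral_const_mul, h1, ← mul_assoc, one_div, inv_mul_cancel₀ hl.ne', one_mul]

lemma integrable_scale {g : ℝ → ℝ} (hg : Integrable g) {s l : ℝ} (hl : 0 < l) :
    Integrable (fun x => (1 / l) * g ((x - s) / l)) :=
  ((hg.comp_div hl.ne').comp_sub_right s).const_mul _

lemma exp_bd1 (u : ℝ) (hu : 0 ≤ u) : Real.exp (-(3 / 4 * u)) ≤ 4 / (1 + u ^ 2) := by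
  have h := Real.quadratic_le_exp_of_nonneg (x := 3 / 4 * u) (by positivity)
  rw [Real.exp_neg, inv_eq_one_div, div_le_div_iff₀ (Real.exp_pos _) (by positivity)]
  nlinarith [sq_nonneg u]

lemma exp_bd2 (u : ℝ) (hu : 0 ≤ u) : Real.exp (-u) ≤ 2 / (1 + u ^ 2) := by
  have h := Real.quadratic_le_exp_of_nonneg (x := u) hu
  rw [Real.exp_neg, inv_eq_one_div, div_le_div_iff₀ (Real.exp_pos _) (by positivity)]
  nlinarith [sq_nonneg u]

lemma Fs_coeff_zero (f0 : ℝ → ℝ) (n : ℕ) : (Fs f0 n).coeff 0 = f0 := by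
  induction n with
  | zero => simp [Fs]
  | succ i ih =>
    rw [Fs, Polynomial.coeff_add, ih, Polynomial.coeff_monomial, if_neg (by omega), add_zero]

lemma FR_sub (f0 : ℝ → ℝ) (n : ℕ) (t x : ℝ) :
    FR f0 n t x - f0 x = ∑ i ∈ Finset.range n, t ^ (i + 1) * (Fs f0 n).coeff (i + 1) x := by
  rw [FR, Finset.sum_range_succ', Fs_coeff_zero]
  simp

/-- The coefficient bound. -/
lemma FR_sub_bd (hF : S_FS) {α : ℝ} {f0 : ℝ → ℝ} (n : ℕ) (h0 : 0 < α) (h1 : α < 1)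
    (hf : IsS (α / 2 - 1 / 2) f0) :
    ∃ C : ℝ, 0 ≤ C ∧ ∀ t x : ℝ, 0 < t → 0 < x → t ≤ x ^ 3 →
      |FR f0 n t x - f0 x| ≤ C * (t * x ^ (α / 2 - 7 / 2)) := by
  obtain ⟨hcoef, -⟩ := hF α f0 h0 h1 hf n
  have hex : ∀ i : ℕ, ∃ C : ℝ, 0 ≤ C ∧ ∀ x : ℝ, 0 < x →
      |(Fs f0 n).coeff i x| ≤ C * x ^ (α / 2 - 1 / 2 - 3 * (i : ℝ)) := by
    intro i
    obtain ⟨C, hC⟩ := (hcoef i).2.2.2 0
    refine ⟨|C|, abs_nonneg _, fun x hx => ?_⟩
    have := hC x hx
    rw [iteratedDeriv_zero] at this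
    simp only [Nat.cast_zero, sub_zero] at this
    refine this.trans ?_
    gcongr
    exact le_abs_self C
  choose C hC0 hC using hex
  refine ⟨∑ i ∈ Finset.range n, C (i + 1), Finset.sum_nonneg fun i _ => hC0 _, ?_⟩
  intro t x ht hx htx
  rw [FR_sub, Finset.sum_mul]
  refine (Finset.abs_sum_le_sum_abs _ _).trans (Finset.sum_le_sum fun i _ => ?_)
  rw [abs_mul, abs_of_pos (pow_pos ht _)]
  have h2 := hC (i + 1) x hx
  have h3 : x ^ (α / 2 - 1 / 2 - 3 * ((i + 1 : ℕ) : ℝ)) = x ^ (α / 2 - 7 / 2) * ((x ^ 3) ^ i)⁻¹ := by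
    rw [← pow_mul, ← Real.rpow_natCast, ← Real.rpow_neg hx.le, ← Real.rpow_add hx]
    congr 1
    push_cast
    ring
  rw [h3] at h2
  have hx3 : 0 < (x ^ 3) ^ i := by positivity
  have h4 : t ^ i * ((x ^ 3) ^ i)⁻¹ ≤ 1 := by
    rw [← div_eq_mul_inv, div_le_one hx3]
    exact pow_le_pow_left₀ ht.le htx i
  calc t ^ (i + 1) * |(Fs f0 n).coeff (i + 1) x|
      ≤ t ^ (i + 1) * (C (i + 1) * (x ^ (α / 2 - 7 / 2) * ((x ^ 3) ^ i)⁻¹)) := by gcongr
    _ = C (i + 1) * (t * x ^ (α / 2 - 7 / 2)) * (t ^ i * ((x ^ 3) ^ i)⁻¹) := by ring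
    _ ≤ C (i + 1) * (t * x ^ (α / 2 - 7 / 2)) * 1 := by
        have : 0 ≤ C (i + 1) * (t * x ^ (α / 2 - 7 / 2)) :=
          mul_nonneg (hC0 _) (mul_nonneg ht.le (Real.rpow_nonneg hx.le _))
        exact mul_le_mul_of_nonneg_left h4 this
    _ = _ := by ring

lemma meas_S {γ : ℝ} {f0 : ℝ → ℝ} (hf : IsS γ f0) : AEStronglyMeasurable f0 volume := by
  have h1 : AEStronglyMeasurable f0 (volume.restrict (Set.Ioi 0)) :=
    hf.1.continuousOn.aestronglyMeasurable measurableSet_Ioi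
  have h2 : f0 = Set.indicator (Set.Ioi 0) f0 := by
    funext x
    by_cases hx : x ∈ Set.Ioi (0 : ℝ)
    · rw [Set.indicator_of_mem hx]
    · rw [Set.indicator_of_notMem hx]
      exact hf.2.1 x (not_lt.mp hx)
  rw [h2]
  exact (aestronglyMeasurable_indicator_iff measurableSet_Ioi).mpr h1

/-- Pointwise bound on the square of `f0`. -/
lemma f0_sq {α C1 : ℝ} {f0 : ℝ → ℝ} (hf1 : ∀ x, 0 < x → |f0 x| ≤ C1 * x ^ (α - 1 / 2)) :
    ∃ C : ℝ, 0 ≤ C ∧ ∀ x : ℝ, 0 < x → f0 x ^ 2 ≤ C * x ^ (2 * α - 1) := by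
  refine ⟨C1 ^ 2, sq_nonneg _, fun x hx => ?_⟩
  have h := hf1 x hx
  have h2 : f0 x ^ 2 ≤ (C1 * x ^ (α - 1 / 2)) ^ 2 := by
    rw [← sq_abs (f0 x)]
    exact pow_le_pow_left₀ (abs_nonneg _) h 2
  refine h2.trans (le_of_eq ?_)
  rw [mul_pow, ← Real.rpow_natCast (x ^ (α - 1 / 2)) 2, ← Real.rpow_mul hx.le]
  congr 2
  push_cast
  ring

lemma intOn_rpow {α s : ℝ} (h0 : 0 < α) (hs : 0 < s) :
    IntegrableOn (fun x : ℝ => x ^ (α - 1)) (Set.Ioc 0 s) ∧
      ∫ x in Set.Ioc 0 s, x ^ (α - 1) = s ^ α / α := by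
  constructor
  · have := intervalIntegral.intervalIntegrable_rpow' (a := 0) (b := s) (r := α - 1) (by linarith)
    exact (intervalIntegrable_iff_integrableOn_Ioc_of_le hs.le).mp this
  · rw [← intervalIntegral.integral_of_le hs.le, integral_rpow (Or.inl (by linarith))]
    rw [sub_add_cancel, Real.zero_rpow h0.ne', sub_zero]

lemma f0_L2 {α C1 : ℝ} {f0 : ℝ → ℝ} (h0 : 0 < α) (hf : IsS (α / 2 - 1 / 2) f0)
    (hf1 : ∀ x, 0 < x → |f0 x| ≤ C1 * x ^ (α - 1 / 2)) : MemLp f0 2 := by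
  obtain ⟨C, hC0, hC⟩ := f0_sq hf1
  rw [memLp_two_iff_integrable_sq (meas_S hf)]
  have hb : Integrable (Set.indicator (Set.Ioc 0 1) (fun x : ℝ => C * x ^ (2 * α - 1))) :=
    (integrable_indicator_iff measurableSet_Ioc).mpr
      ((intOn_rpow (show 0 < 2 * α by linarith) one_pos).1.const_mul C)
  refine hb.mono' ((meas_S hf).pow 2) (Filter.Eventually.of_forall fun x => ?_)
  rw [Real.norm_eq_abs, abs_of_nonneg (sq_nonneg _)]
  by_cases hx : x ∈ Set.Ioc (0 : ℝ) 1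
  · rw [Set.indicator_of_mem hx]
    exact hC x hx.1
  · rw [Set.indicator_of_notMem hx]
    have : f0 x = 0 := by
      by_cases h : 0 < x
      · have h1 : ¬ x ≤ 1 := fun h1 => hx ⟨h, h1⟩
        exact hf.2.2.1 x (not_le.mp h1).le
      · exact hf.2.1 x (not_lt.mp h)
    rw [this]
    simp

lemma left_pt {C0 CQ r y a q : ℝ} (hr : 0 < r) (hr1 : r ≤ 1) (hCQ : 0 ≤ CQ) (hy0 : y ≤ 0)
    (h1 : |a - q| ≤ C0 * r)
    (h2 : y ≤ -(2 * r ^ (-((1 : ℝ) / 2))) → |a| ≤ C0 * Real.exp (-(3 / 4 * |y|)))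
    (hq : |q| ≤ CQ * Real.exp (-|y|)) :
    (a - q) ^ 2 ≤ (5 * C0 ^ 2 + 4 * (|C0| * (|C0| + CQ))) * (r / (1 + y ^ 2)) := by
  have hC0 : 0 ≤ C0 := by
    by_contra h
    have : C0 * r < 0 := mul_neg_of_neg_of_pos (not_le.mp h) hr
    linarith [abs_nonneg (a - q)]
  rw [abs_of_nonneg hC0]
  have hp : 0 ≤ r / (1 + y ^ 2) := by positivity
  by_cases hy : y ≤ -(2 * r ^ (-((1 : ℝ) / 2)))
  · have h3 := h2 hy
    have h4 : Real.exp (-|y|) ≤ Real.exp (-(3 / 4 * |y|)) := by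
      apply Real.exp_le_exp.mpr
      linarith [abs_nonneg y]
    have h5 := exp_bd1 |y| (abs_nonneg y)
    rw [sq_abs] at h5
    have h6 : |a - q| ≤ (C0 + CQ) * (4 / (1 + y ^ 2)) := by
      calc |a - q| ≤ |a| + |q| := abs_sub _ _
        _ ≤ C0 * Real.exp (-(3 / 4 * |y|)) + CQ * Real.exp (-(3 / 4 * |y|)) := by
            gcongr
            exact hq.trans (by gcongr)
        _ = (C0 + CQ) * Real.exp (-(3 / 4 * |y|)) := by ring
        _ ≤ _ := by gcongr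
    calc (a - q) ^ 2 = |a - q| * |a - q| := by rw [← sq_abs]; ring
      _ ≤ (C0 * r) * ((C0 + CQ) * (4 / (1 + y ^ 2))) := by gcongr
      _ = (4 * (C0 * (C0 + CQ))) * (r / (1 + y ^ 2)) := by ring
      _ ≤ _ := by
          apply mul_le_mul_of_nonneg_right _ hp
          nlinarith [sq_nonneg C0]
  · have hy' : -y < 2 * r ^ (-((1 : ℝ) / 2)) := by linarith [not_le.mp hy]
    have h3 : y ^ 2 ≤ 4 / r := by
      have h4 : y ^ 2 ≤ (2 * r ^ (-((1 : ℝ) / 2))) ^ 2 := by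
        rw [← neg_sq y]
        exact pow_le_pow_left₀ (by linarith) hy'.le 2
      have h5 : (r ^ (-((1 : ℝ) / 2))) ^ 2 = 1 / r := by
        rw [← Real.rpow_natCast, ← Real.rpow_mul hr.le]
        norm_num
        rw [Real.rpow_neg_one]
      rw [mul_pow, h5] at h4
      refine h4.trans (le_of_eq ?_)
      ring
    have h6 : r ≤ 5 / (1 + y ^ 2) := by
      rw [le_div_iff₀ (by positivity)]
      have : r * y ^ 2 ≤ 4 := by
        calc r * y ^ 2 ≤ r * (4 / r) := by gcongr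
          _ = 4 := by field_simp
      nlinarith
    calc (a - q) ^ 2 = |a - q| * |a - q| := by rw [← sq_abs]; ring
      _ ≤ (C0 * r) * (C0 * r) := by gcongr
      _ = (C0 ^ 2 * r) * r := by ring
      _ ≤ (C0 ^ 2 * r) * (5 / (1 + y ^ 2)) := by gcongr
      _ = (5 * C0 ^ 2) * (r / (1 + y ^ 2)) := by ring
      _ ≤ _ := by
          apply mul_le_mul_of_nonneg_right _ hp
          have : 0 ≤ C0 * (C0 + CQ) := mul_nonneg hC0 (by linarith)
          linarith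

lemma right_pt {C0 r y d : ℝ} (hr : 0 < r) (hr1 : r ≤ 1) (hy : 0 ≤ y)
    (h : |d| ≤ C0 * r ^ ((7 : ℝ) / 8) * Real.exp (-y / 2)) :
    d ^ 2 ≤ 2 * C0 ^ 2 * (r / (1 + y ^ 2)) := by
  have h1 : d ^ 2 ≤ (C0 * r ^ ((7 : ℝ) / 8) * Real.exp (-y / 2)) ^ 2 := by
    rw [← sq_abs d]
    exact pow_le_pow_left₀ (abs_nonneg _) h 2
  have h2 : (r ^ ((7 : ℝ) / 8)) ^ 2 ≤ r := by
    rw [← Real.rpow_natCast, ← Real.rpow_mul hr.le]
    calc r ^ ((7 : ℝ) / 8 * ((2 : ℕ) : ℝ)) ≤ r ^ (1 : ℝ) :=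
          Real.rpow_le_rpow_of_exponent_ge hr hr1 (by norm_num)
      _ = r := Real.rpow_one r
  have h3 : (Real.exp (-y / 2)) ^ 2 ≤ 2 / (1 + y ^ 2) := by
    rw [← Real.exp_nat_mul]
    refine le_trans (le_of_eq ?_) (exp_bd2 y hy)
    congr 1
    push_cast
    ring
  calc d ^ 2 ≤ (C0 * r ^ ((7 : ℝ) / 8) * Real.exp (-y / 2)) ^ 2 := h1
    _ = C0 ^ 2 * (r ^ ((7 : ℝ) / 8)) ^ 2 * (Real.exp (-y / 2)) ^ 2 := by ring
    _ ≤ C0 ^ 2 * r * (2 / (1 + y ^ 2)) := by gcongr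
    _ = _ := by ring

/-- Facts on the curve at one time. -/
structure Cv (α t : ℝ) : Prop where
  sp : 0 < sig α t
  lp : 0 < lam α t
  rp : 0 < rho α t
  s1 : sig α t ≤ 1
  r1 : rho α t ≤ 1
  ts : t ≤ sig α t ^ 3
  rs : rho α t = sig α t ^ (2 * α)
  ts2 : t ^ 2 * sig α t ^ (α - 6) ≤ rho α t

lemma cv_of (hC : S_CURV) {α : ℝ} (h0 : 0 < α) (h1 : α < 1) :
    ∃ T : ℝ, 0 < T ∧ ∀ t, 0 < t → t ≤ T → Cv α t := by
  obtain ⟨hc, -, -, -, hs, -⟩ := hC α h0 h1
  obtain ⟨T, hT, hTs⟩ := hs 1 one_pos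
  refine ⟨T, hT, fun t ht htT => ?_⟩
  obtain ⟨a1, a2, a3, a4, a5, -⟩ := hc t ht
  obtain ⟨b1, b2, b3⟩ := hTs t ht htT
  refine ⟨a1, a2, a3, b1.le, b3.le, ?_, rfl, ?_⟩
  · have h3 : sig α t ^ (4 * α + 3) ≤ sig α t ^ (3 : ℝ) :=
      Real.rpow_le_rpow_of_exponent_ge a1 b1.le (by linarith)
    have h4 : sig α t ^ (3 : ℝ) = sig α t ^ 3 := by
      rw [← Real.rpow_natCast]; norm_num
    rw [a5, h4] at h3
    nlinarith
  · have h3 : t ≤ sig α t ^ (4 * α + 3) := by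
      rw [a5]
      nlinarith
    have h4 : t ^ 2 ≤ (sig α t ^ (4 * α + 3)) ^ 2 := pow_le_pow_left₀ ht.le h3 2
    have h5 : rho α t = sig α t ^ (2 * α) := rfl
    calc t ^ 2 * sig α t ^ (α - 6) ≤ (sig α t ^ (4 * α + 3)) ^ 2 * sig α t ^ (α - 6) :=
          mul_le_mul_of_nonneg_right h4 (Real.rpow_nonneg a1.le _)
      _ = sig α t ^ (9 * α) := by
          rw [← Real.rpow_natCast, ← Real.rpow_mul a1.le, ← Real.rpow_add a1]
          congr 1
          push_cast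
          ring
      _ ≤ sig α t ^ (2 * α) := Real.rpow_le_rpow_of_exponent_ge a1 b1.le (by linarith)
      _ = rho α t := h5.symm

/-- The dominating function. -/
noncomputable def Bf (α A Cf CR t x : ℝ) : ℝ :=
  2 * (A * rho α t * ((1 / lam α t) * (1 + ((x - sig α t) / lam α t) ^ 2)⁻¹))
    + 2 * Set.indicator (Set.Ioc 0 (sig α t)) (fun x => Cf * x ^ (2 * α - 1)) x
    + 2 * Set.indicator (Set.Ioi (sig α t)) (fun x => CR ^ 2 * t ^ 2 * x ^ (α - 7)) x

lemma Bf_int {α A Cf CR t : ℝ} (h0 : 0 < α) (h1 : α < 1) (hc : Cv α t) :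
    Integrable (Bf α A Cf CR t) ∧
      (∫ x, Bf α A Cf CR t x) ≤ (2 * A * π + 2 * (Cf / (2 * α)) + 2 * CR ^ 2) * rho α t := by
  have i1 : Integrable (fun x => 2 * (A * rho α t *
      ((1 / lam α t) * (1 + ((x - sig α t) / lam α t) ^ 2)⁻¹))) :=
    ((integrable_scale (g := fun y : ℝ => (1 + y ^ 2)⁻¹) integrable_inv_one_add_sq hc.lp).const_mul
      _).const_mul _
  obtain ⟨j1, j2⟩ := intOn_rpow (show 0 < 2 * α by linarith) hc.sp
  have i2 : Integrable (fun x => 2 * Set.indicator (Set.Ioc 0 (sig α t))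
      (fun x => Cf * x ^ (2 * α - 1)) x) :=
    ((integrable_indicator_iff measurableSet_Ioc).mpr (j1.const_mul Cf)).const_mul _
  have j3 : IntegrableOn (fun x : ℝ => x ^ (α - 7)) (Set.Ioi (sig α t)) :=
    integrableOn_Ioi_rpow_of_lt (by linarith) hc.sp
  have j4 : ∫ x in Set.Ioi (sig α t), x ^ (α - 7) = sig α t ^ (α - 6) / (6 - α) := by
    rw [integral_Ioi_rpow_of_lt (by linarith) hc.sp]
    have : α - 7 + 1 = α - 6 := by ring
    rw [this, neg_div, ← div_neg]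
    congr 1
    ring
  have i3 : Integrable (fun x => 2 * Set.indicator (Set.Ioi (sig α t))
      (fun x => CR ^ 2 * t ^ 2 * x ^ (α - 7)) x) :=
    ((integrable_indicator_iff measurableSet_Ioi).mpr (j3.const_mul _)).const_mul _
  refine ⟨(i1.add i2).add i3, ?_⟩
  have e1 : (∫ x, 2 * (A * rho α t *
      ((1 / lam α t) * (1 + ((x - sig α t) / lam α t) ^ 2)⁻¹))) = 2 * (A * rho α t * π) := by
    rw [integral_const_mul, integral_const_mul,
      int_scale (fun y : ℝ => (1 + y ^ 2)⁻¹) hc.lp, integral_univ_inv_one_add_sq]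
  have e2 : (∫ x, 2 * Set.indicator (Set.Ioc 0 (sig α t)) (fun x => Cf * x ^ (2 * α - 1)) x)
      = 2 * (Cf * (sig α t ^ (2 * α) / (2 * α))) := by
    rw [integral_const_mul, integral_indicator measurableSet_Ioc, integral_const_mul, j2]
  have e3 : (∫ x, 2 * Set.indicator (Set.Ioi (sig α t)) (fun x => CR ^ 2 * t ^ 2 * x ^ (α - 7)) x)
      = 2 * (CR ^ 2 * t ^ 2 * (sig α t ^ (α - 6) / (6 - α))) := by
    rw [integral_const_mul, integral_indicator measurableSet_Ioi, integral_const_mul, j4]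
  have e : (∫ x, Bf α A Cf CR t x) = 2 * (A * rho α t * π) + 2 * (Cf * (sig α t ^ (2 * α) / (2 * α)))
      + 2 * (CR ^ 2 * t ^ 2 * (sig α t ^ (α - 6) / (6 - α))) := by
    have q1 : (∫ x, Bf α A Cf CR t x) = _ := integral_add (i1.add i2) i3
    have q2 := integral_add i1 i2
    rw [q1, q2, e1, e2, e3]
  rw [e]
  have hsp := hc.sp
  have hs3 : t ^ 2 * (sig α t ^ (α - 6) / (6 - α)) ≤ rho α t := by
    have g2 : sig α t ^ (α - 6) / (6 - α) ≤ sig α t ^ (α - 6) :=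
      div_le_self (Real.rpow_nonneg hsp.le _) (by linarith)
    exact (mul_le_mul_of_nonneg_left g2 (sq_nonneg t)).trans hc.ts2
  rw [← hc.rs]
  have hrp := hc.rp
  have hpi := Real.pi_pos
  calc 2 * (A * rho α t * π) + 2 * (Cf * (rho α t / (2 * α)))
      + 2 * (CR ^ 2 * t ^ 2 * (sig α t ^ (α - 6) / (6 - α)))
      = 2 * A * π * rho α t + 2 * (Cf / (2 * α)) * rho α t
        + 2 * CR ^ 2 * (t ^ 2 * (sig α t ^ (α - 6) / (6 - α))) := by ring
    _ ≤ 2 * A * π * rho α t + 2 * (Cf / (2 * α)) * rho α t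
        + 2 * CR ^ 2 * rho α t := by gcongr
    _ = _ := by ring

lemma sq_scale {l a : ℝ} (hl : 0 < l) : ((1 / Real.sqrt l) * a) ^ 2 = (1 / l) * a ^ 2 := by
  rw [mul_pow, div_pow, one_pow, Real.sq_sqrt hl.le]

/-- Pointwise bound of the error. -/
lemma E_bd (hQ : S_QF) (hF : S_FS) {α T0 C0 C1 : ℝ} {v : ℝ → ℝ → ℝ} {f0 : ℝ → ℝ} {n : ℕ}
    (h0 : 0 < α) (h1 : α < 1) (hf : IsS (α / 2 - 1 / 2) f0)
    (hf1 : ∀ x, 0 < x → |f0 x| ≤ C1 * x ^ (α - 1 / 2)) (hU : UBd α T0 C0 v (Fhat α f0 n)) :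
    ∃ A Cf CR : ℝ, 0 ≤ A ∧ 0 ≤ Cf ∧ ∀ t, 0 < t → t ≤ T0 → Cv α t → ∀ x,
      (outr α v t x - outr α (fun _ => Q) t x - f0 x) ^ 2 ≤ Bf α A Cf CR t x := by
  obtain ⟨-, -, -, -, -, -, hQd, -⟩ := hQ
  obtain ⟨CQ, hCQ⟩ := hQd 0
  obtain ⟨Cf, hCf0, hCf⟩ := f0_sq hf1
  obtain ⟨CR, hCR0, hCR⟩ := FR_sub_bd hF n h0 h1 hf
  have hCQ' : ∀ y, |Q y| ≤ |CQ| * Real.exp (-|y|) := by
    intro y
    have := hCQ y
    rw [iteratedDeriv_zero] at this
    refine this.trans ?_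
    gcongr
    exact le_abs_self _
  set A1 : ℝ := 5 * C0 ^ 2 + 4 * (|C0| * (|C0| + |CQ|)) with hA1
  set A2 : ℝ := 2 * C0 ^ 2 with hA2
  have hA10 : 0 ≤ A1 := by positivity
  have hA20 : 0 ≤ A2 := by positivity
  refine ⟨A1 + A2, Cf, CR, by positivity, hCf0, ?_⟩
  intro t ht htT hc x
  have hmem : t ∈ Set.Ioc 0 T0 := ⟨ht, htT⟩
  have hlp := hc.lp
  have hsp := hc.sp
  have hrp := hc.rp
  set y : ℝ := (x - sig α t) / lam α t with hy
  have hxy : sig α t + lam α t * y = x := by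
    rw [hy]; field_simp; ring
  have hW : outr α v t x - outr α (fun _ => Q) t x = (1 / Real.sqrt (lam α t)) * (v t y - Q y) := by
    simp only [outr, ← hy]
    ring
  have hy1 : 0 < 1 + y ^ 2 := by positivity
  have hl1 : 0 ≤ 1 / lam α t := by positivity
  by_cases hx : x ≤ sig α t
  · have hy0 : y ≤ 0 := div_nonpos_of_nonpos_of_nonneg (by linarith) hlp.le
    have hd : (v t y - Q y) ^ 2 ≤ A1 * (rho α t / (1 + y ^ 2)) := by
      refine left_pt hrp hc.r1 (abs_nonneg _) hy0 (hU.neg0 t hmem y hy0) ?_ (hCQ' y)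
      intro h
      have := (hU.tail t hmem y h).1 0 (by norm_num)
      rwa [iteratedDeriv_zero] at this
    have hf2 : f0 x ^ 2 ≤ Set.indicator (Set.Ioc 0 (sig α t)) (fun x => Cf * x ^ (2 * α - 1)) x := by
      by_cases hx0 : 0 < x
      · rw [Set.indicator_of_mem (show x ∈ Set.Ioc 0 (sig α t) from ⟨hx0, hx⟩)]
        exact hCf x hx0
      · rw [Set.indicator_of_notMem (fun h => hx0 h.1), hf.2.1 x (not_lt.mp hx0)]
        norm_num
    have hi3 : Set.indicator (Set.Ioi (sig α t)) (fun x => CR ^ 2 * t ^ 2 * x ^ (α - 7)) x = 0 :=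
      Set.indicator_of_notMem (fun h => absurd hx (not_le.mpr h)) _
    rw [hW, Bf, hi3, ← hy]
    calc ((1 / Real.sqrt (lam α t)) * (v t y - Q y) - f0 x) ^ 2
        ≤ 2 * ((1 / Real.sqrt (lam α t)) * (v t y - Q y)) ^ 2 + 2 * f0 x ^ 2 := by
          nlinarith [sq_nonneg ((1 / Real.sqrt (lam α t)) * (v t y - Q y) + f0 x)]
      _ = 2 * ((1 / lam α t) * (v t y - Q y) ^ 2) + 2 * f0 x ^ 2 := by rw [sq_scale hlp]
      _ ≤ 2 * ((1 / lam α t) * ((A1 + A2) * (rho α t / (1 + y ^ 2)))) + 2 *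
          Set.indicator (Set.Ioc 0 (sig α t)) (fun x => Cf * x ^ (2 * α - 1)) x := by
          have : A1 * (rho α t / (1 + y ^ 2)) ≤ (A1 + A2) * (rho α t / (1 + y ^ 2)) :=
            mul_le_mul_of_nonneg_right (by linarith) (by positivity)
          gcongr
          exact hd.trans this
      _ = _ := by
          rw [div_eq_mul_inv (rho α t)]
          ring
  · have hx' : sig α t < x := not_le.mp hx
    have hx0 : 0 < x := hsp.trans hx'
    have hy0 : 0 ≤ y := div_nonneg (by linarith) hlp.le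
    have hd : (v t y - Q y - Fhat α f0 n t y) ^ 2 ≤ A2 * (rho α t / (1 + y ^ 2)) := by
      refine right_pt hrp hc.r1 hy0 ?_
      have := hU.posk t hmem y hy0 0 (by norm_num)
      simpa only [iteratedDeriv_zero] using this
    have hFh : Fhat α f0 n t y = Real.sqrt (lam α t) * FR f0 n t x := by
      rw [Fhat, hxy]
    have hsq : Real.sqrt (lam α t) ≠ 0 := (Real.sqrt_pos.mpr hlp).ne'
    have hdec : (1 / Real.sqrt (lam α t)) * (v t y - Q y) - f0 x
        = (1 / Real.sqrt (lam α t)) * (v t y - Q y - Fhat α f0 n t y) + (FR f0 n t x - f0 x) := by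
      rw [hFh]
      field_simp
      ring
    have hfr : (FR f0 n t x - f0 x) ^ 2 ≤ CR ^ 2 * t ^ 2 * x ^ (α - 7) := by
      have htx : t ≤ x ^ 3 := hc.ts.trans (pow_le_pow_left₀ hsp.le hx'.le 3)
      have h2 : (FR f0 n t x - f0 x) ^ 2 ≤ (CR * (t * x ^ (α / 2 - 7 / 2))) ^ 2 := by
        rw [← sq_abs (FR f0 n t x - f0 x)]
        exact pow_le_pow_left₀ (abs_nonneg _) (hCR t x ht hx0 htx) 2
      refine h2.trans (le_of_eq ?_)
      have h3 : (x ^ (α / 2 - 7 / 2)) ^ 2 = x ^ (α - 7) := by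
        rw [← Real.rpow_natCast (x ^ (α / 2 - 7 / 2)) 2, ← Real.rpow_mul hx0.le]
        congr 1
        push_cast
        ring
      rw [mul_pow, mul_pow, h3]
      ring
    have hi2 : Set.indicator (Set.Ioc 0 (sig α t)) (fun x => Cf * x ^ (2 * α - 1)) x = 0 :=
      Set.indicator_of_notMem (fun h => hx h.2) _
    have hi3 : Set.indicator (Set.Ioi (sig α t)) (fun x => CR ^ 2 * t ^ 2 * x ^ (α - 7)) x
        = CR ^ 2 * t ^ 2 * x ^ (α - 7) := Set.indicator_of_mem hx' _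
    rw [hW, Bf, hi2, hi3, ← hy, hdec]
    calc ((1 / Real.sqrt (lam α t)) * (v t y - Q y - Fhat α f0 n t y) + (FR f0 n t x - f0 x)) ^ 2
        ≤ 2 * ((1 / Real.sqrt (lam α t)) * (v t y - Q y - Fhat α f0 n t y)) ^ 2
          + 2 * (FR f0 n t x - f0 x) ^ 2 := by
          nlinarith [sq_nonneg ((1 / Real.sqrt (lam α t)) * (v t y - Q y - Fhat α f0 n t y)
            - (FR f0 n t x - f0 x))]
      _ = 2 * ((1 / lam α t) * (v t y - Q y - Fhat α f0 n t y) ^ 2)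
          + 2 * (FR f0 n t x - f0 x) ^ 2 := by rw [sq_scale hlp]
      _ ≤ 2 * ((1 / lam α t) * ((A1 + A2) * (rho α t / (1 + y ^ 2))))
          + 2 * (CR ^ 2 * t ^ 2 * x ^ (α - 7)) := by
          have : A2 * (rho α t / (1 + y ^ 2)) ≤ (A1 + A2) * (rho α t / (1 + y ^ 2)) :=
            mul_le_mul_of_nonneg_right (by linarith) (by positivity)
          gcongr
          exact hd.trans this
      _ = _ := by
          rw [div_eq_mul_inv (rho α t)]
          ring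

lemma outr_cont {α T1 : ℝ} {v : ℝ → ℝ → ℝ}
    (hv : ContDiffOn ℝ (⊤ : ℕ∞) (fun q : ℝ × ℝ => v q.1 q.2) (Set.Ioo 0 T1 ×ˢ Set.univ))
    {t : ℝ} (ht : t ∈ Set.Ioo 0 T1) : Continuous (fun x => outr α v t x) := by
  have h1 : Continuous (fun x : ℝ => v t ((x - sig α t) / lam α t)) := by
    have h2 : Continuous (fun x : ℝ => ((t, (x - sig α t) / lam α t) : ℝ × ℝ)) := by fun_prop
    exact hv.continuousOn.comp_continuous h2 (fun x => ⟨ht, Set.mem_univ _⟩)
  exact continuous_const.mul h1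

lemma Q_int (hQ : S_QF) : Integrable Q ∧ Integrable (fun y => Q y ^ 2) := by
  obtain ⟨hs, -, -, -, -, -, hQd, -⟩ := hQ
  obtain ⟨CQ, hCQ⟩ := hQd 0
  have hcont : Continuous Q := hs.continuous
  have hE : Integrable (fun y : ℝ => |CQ| * (4 * (1 + y ^ 2)⁻¹)) :=
    (integrable_inv_one_add_sq.const_mul _).const_mul _
  have hE2 : Integrable (fun y : ℝ => |CQ| ^ 2 * (4 * (1 + y ^ 2)⁻¹)) :=
    (integrable_inv_one_add_sq.const_mul _).const_mul _
  have hb : ∀ y : ℝ, Real.exp (-|y|) ≤ 4 * (1 + y ^ 2)⁻¹ := by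
    intro y
    have h5 := exp_bd1 |y| (abs_nonneg y)
    rw [sq_abs] at h5
    rw [← div_eq_mul_inv]
    refine le_trans ?_ h5
    apply Real.exp_le_exp.mpr
    linarith [abs_nonneg y]
  have hq : ∀ y, |Q y| ≤ |CQ| * Real.exp (-|y|) := by
    intro y
    have := hCQ y
    rw [iteratedDeriv_zero] at this
    refine this.trans ?_
    gcongr
    exact le_abs_self _
  constructor
  · refine hE.mono' hcont.aestronglyMeasurable (Filter.Eventually.of_forall fun y => ?_)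
    rw [Real.norm_eq_abs]
    exact (hq y).trans (mul_le_mul_of_nonneg_left (hb y) (abs_nonneg _))
  · refine hE2.mono' (hcont.pow 2).aestronglyMeasurable (Filter.Eventually.of_forall fun y => ?_)
    rw [Real.norm_eq_abs, abs_pow]
    have h1 : |Q y| ^ 2 ≤ (|CQ| * Real.exp (-|y|)) ^ 2 := pow_le_pow_left₀ (abs_nonneg _) (hq y) 2
    refine h1.trans ?_
    rw [mul_pow]
    have h2 : Real.exp (-|y|) ≤ 1 := Real.exp_le_one_iff.mpr (by linarith [abs_nonneg y])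
    have h3 : Real.exp (-|y|) ^ 2 ≤ Real.exp (-|y|) := by
      nlinarith [Real.exp_pos (-|y|)]
    gcongr
    exact h3.trans (hb y)

lemma sup_bd (hB : S_FHB) {α T0 C0 : ℝ} {v : ℝ → ℝ → ℝ} {f0 : ℝ → ℝ} {n : ℕ}
    (h0 : 0 < α) (h1 : α < 1) (hf : IsS (α / 2 - 1 / 2) f0) (hU : UBd α T0 C0 v (Fhat α f0 n)) :
    ∃ CD : ℝ, 0 ≤ CD ∧ ∀ t, 0 < t → t ≤ T0 → Cv α t → ∀ y,
      |v t y - Q y| ≤ CD * rho α t ^ ((3 : ℝ) / 4) := by
  obtain ⟨CB, hCB⟩ := hB α f0 n h0 h1 hf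
  refine ⟨|C0| + |CB|, by positivity, ?_⟩
  intro t ht htT hc y
  have hmem : t ∈ Set.Ioc 0 T0 := ⟨ht, htT⟩
  have hrp := hc.rp
  have hpw : ∀ e : ℝ, 3 / 4 ≤ e → rho α t ^ e ≤ rho α t ^ ((3 : ℝ) / 4) := fun e he =>
    Real.rpow_le_rpow_of_exponent_ge hrp hc.r1 he
  have hp0 : 0 ≤ rho α t ^ ((3 : ℝ) / 4) := Real.rpow_nonneg hrp.le _
  rcases le_total y 0 with hy | hy
  · have h2 := hpw 1 (by norm_num)
    rw [Real.rpow_one] at h2
    calc |v t y - Q y| ≤ C0 * rho α t := hU.neg0 t hmem y hy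
      _ ≤ |C0| * rho α t ^ ((3 : ℝ) / 4) := by
          have := le_abs_self C0
          gcongr
      _ ≤ _ := by
          apply mul_le_mul_of_nonneg_right _ hp0
          linarith [abs_nonneg CB]
  · have h2 := hU.posk t hmem y hy 0 (by norm_num)
    simp only [iteratedDeriv_zero] at h2
    have h3 := (hCB t y ht hc.s1 (by nlinarith [hc.sp, hc.lp])).1 0 (by norm_num)
    rw [iteratedDeriv_zero] at h3
    simp only [Nat.cast_zero, zero_add] at h3
    have h4 : |Fhat α f0 n t y| ≤ CB * rho α t ^ ((3 : ℝ) / 4) := h3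
    have h5 : Real.exp (-y / 2) ≤ 1 := Real.exp_le_one_iff.mpr (by linarith)
    have h6 : C0 * rho α t ^ ((7 : ℝ) / 8) * Real.exp (-y / 2) ≤ |C0| * rho α t ^ ((3 : ℝ) / 4) := by
      calc C0 * rho α t ^ ((7 : ℝ) / 8) * Real.exp (-y / 2)
          ≤ |C0| * rho α t ^ ((7 : ℝ) / 8) * 1 := by
            have h7 := le_abs_self C0
            have h8 : 0 ≤ rho α t ^ ((7 : ℝ) / 8) := Real.rpow_nonneg hrp.le _
            gcongr
        _ ≤ |C0| * rho α t ^ ((3 : ℝ) / 4) := by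
            rw [mul_one]
            exact mul_le_mul_of_nonneg_left (hpw _ (by norm_num)) (abs_nonneg _)
    have h9 : CB * rho α t ^ ((3 : ℝ) / 4) ≤ |CB| * rho α t ^ ((3 : ℝ) / 4) :=
      mul_le_mul_of_nonneg_right (le_abs_self _) hp0
    calc |v t y - Q y| = |(v t y - Q y - Fhat α f0 n t y) + Fhat α f0 n t y| := by ring_nf
      _ ≤ |v t y - Q y - Fhat α f0 n t y| + |Fhat α f0 n t y| := abs_add_le _ _
      _ ≤ |C0| * rho α t ^ ((3 : ℝ) / 4) + |CB| * rho α t ^ ((3 : ℝ) / 4) := by linarith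
      _ = _ := by ring

/-- Mass at one time. -/
lemma mass_one (hQ : S_QF) {α C CD T1 : ℝ} {v : ℝ → ℝ → ℝ} {f0 : ℝ → ℝ}
    (hv : ContDiffOn ℝ (⊤ : ℕ∞) (fun q : ℝ × ℝ => v q.1 q.2) (Set.Ioo 0 T1 ×ˢ Set.univ))
    (hfm : AEStronglyMeasurable f0 volume) (hf2 : Integrable (fun x => f0 x ^ 2))
    (hCD : 0 ≤ CD) (hC : 0 ≤ C) {t : ℝ} (ht : t ∈ Set.Ioo 0 T1) (hc : Cv α t)
    (hD : ∀ y, |v t y - Q y| ≤ CD * rho α t ^ ((3 : ℝ) / 4))
    (hE : Integrable (fun x => (outr α v t x - outr α (fun _ => Q) t x - f0 x) ^ 2))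
    (hE2 : (∫ x, (outr α v t x - outr α (fun _ => Q) t x - f0 x) ^ 2)
      ≤ C * rho α t) :
    |(∫ x, outr α v t x ^ 2) - ((∫ y, Q y ^ 2) + ∫ x, f0 x ^ 2)|
      ≤ (2 * CD * (∫ y, Q y) + (∫ x, f0 x ^ 2) + 2 * C) * rho α t ^ ((1 : ℝ) / 2) := by
  obtain ⟨hQi, hQ2⟩ := Q_int hQ
  have hQp := hQ.2.1
  have hQc : Continuous Q := hQ.1.continuous
  have hrp := hc.rp
  have hlp := hc.lp
  set S : ℝ → ℝ := fun x => outr α (fun _ => Q) t x with hS
  set W : ℝ → ℝ := fun x => outr α v t x with hW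
  set d : ℝ := rho α t ^ ((1 : ℝ) / 2) with hd
  have hdp : 0 < d := Real.rpow_pos_of_pos hrp _
  have hd1 : d ≤ 1 := Real.rpow_le_one hrp.le hc.r1 (by norm_num)
  have hd2 : rho α t = d ^ 2 := by
    rw [hd, ← Real.rpow_natCast, ← Real.rpow_mul hrp.le]; norm_num
  rw [hd2] at hE2
  replace hD : ∀ y, |v t y - Q y| ≤ CD * d := by
    intro y
    refine (hD y).trans (mul_le_mul_of_nonneg_left ?_ hCD)
    exact Real.rpow_le_rpow_of_exponent_ge hrp hc.r1 (by norm_num)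
  have hWc : Continuous W := outr_cont hv ht
  have hSc : Continuous S := by
    have : Continuous (fun x : ℝ => Q ((x - sig α t) / lam α t)) := by fun_prop
    exact continuous_const.mul this
  have hSe : ∀ x, S x = (1 / Real.sqrt (lam α t)) * Q ((x - sig α t) / lam α t) := fun x => rfl
  have hWe : ∀ x, W x = (1 / Real.sqrt (lam α t)) * v t ((x - sig α t) / lam α t) := fun x => rfl
  have hS2 : ∀ x, S x ^ 2 = (1 / lam α t) * Q ((x - sig α t) / lam α t) ^ 2 := by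
    intro x
    rw [hSe, sq_scale hlp]
  have iS : Integrable (fun x => S x ^ 2) := by
    have := integrable_scale (s := sig α t) hQ2 hlp
    refine this.congr (Filter.Eventually.of_forall fun x => ?_)
    simp only [hS2]
  have eS : (∫ x, S x ^ 2) = ∫ y, Q y ^ 2 := by
    rw [← int_scale (fun y => Q y ^ 2) (s := sig α t) hlp]
    exact integral_congr_ae (Filter.Eventually.of_forall fun x => by simp only [hS2])
  -- the dominating function
  set G : ℝ → ℝ := fun x => 2 * CD * d * ((1 / lam α t) * Q ((x - sig α t) / lam α t))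
    + d * f0 x ^ 2 + (1 / d + 1) * (W x - S x - f0 x) ^ 2 with hG
  have iG1 : Integrable (fun x => 2 * CD * d *
      ((1 / lam α t) * Q ((x - sig α t) / lam α t))) :=
    (integrable_scale hQi hlp).const_mul _
  have iG2 : Integrable (fun x => d * f0 x ^ 2) := hf2.const_mul _
  have iG3 : Integrable (fun x => (1 / d + 1) * (W x - S x - f0 x) ^ 2) := hE.const_mul _
  have iG : Integrable G := (iG1.add iG2).add iG3
  have eG : (∫ x, G x) = 2 * CD * d * (∫ y, Q y) + d * (∫ x, f0 x ^ 2)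
      + (1 / d + 1) * ∫ x, (W x - S x - f0 x) ^ 2 := by
    have q1 : (∫ x, G x) = _ := integral_add (iG1.add iG2) iG3
    have q2 := integral_add iG1 iG2
    have q3 : (∫ x, 2 * CD * d * ((1 / lam α t) * Q ((x - sig α t) / lam α t)))
        = 2 * CD * d * ∫ y, Q y := by
      rw [← int_scale Q (s := sig α t) hlp, integral_const_mul]
    have q4 : (∫ x, d * f0 x ^ 2) = d * ∫ x, f0 x ^ 2 := integral_const_mul _ _
    have q5 : (∫ x, (1 / d + 1) * (W x - S x - f0 x) ^ 2)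
        = (1 / d + 1) * ∫ x, (W x - S x - f0 x) ^ 2 := integral_const_mul _ _
    rw [q1, q2, q3, q4, q5]
  have hpt : ∀ x, ‖W x ^ 2 - S x ^ 2 - f0 x ^ 2‖ ≤ G x := by
    intro x
    have hDx : |W x - S x| ≤ (1 / Real.sqrt (lam α t)) * (CD * d) := by
      rw [hWe, hSe, ← mul_sub, abs_mul, abs_of_nonneg (by positivity)]
      exact mul_le_mul_of_nonneg_left (hD _) (by positivity)
    have hSD : |S x * (W x - S x)| ≤ CD * d * ((1 / lam α t) * Q ((x - sig α t) / lam α t)) := by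
      rw [abs_mul]
      have hSp : |S x| = (1 / Real.sqrt (lam α t)) * Q ((x - sig α t) / lam α t) := by
        rw [← hSe]
        exact abs_of_nonneg (by rw [hSe]; exact mul_nonneg (by positivity) (hQp _).le)
      calc |S x| * |W x - S x|
          ≤ ((1 / Real.sqrt (lam α t)) * Q ((x - sig α t) / lam α t)) *
            ((1 / Real.sqrt (lam α t)) * (CD * d)) := by
            rw [hSp]
            exact mul_le_mul_of_nonneg_left hDx (mul_nonneg (by positivity) (hQp _).le)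
        _ = CD * d * ((1 / Real.sqrt (lam α t)) ^ 2 * Q ((x - sig α t) / lam α t)) := by ring
        _ = _ := by
            have : (1 / Real.sqrt (lam α t)) ^ 2 = 1 / lam α t := by
              rw [div_pow, one_pow, Real.sq_sqrt hlp.le]
            rw [this]
    have hfe : |2 * (f0 x * (W x - S x - f0 x))| ≤ d * f0 x ^ 2
        + (1 / d) * (W x - S x - f0 x) ^ 2 := by
      have h1 : 0 ≤ d * (f0 x - (1 / d) * (W x - S x - f0 x)) ^ 2 := by positivity
      have h2 : 0 ≤ d * (f0 x + (1 / d) * (W x - S x - f0 x)) ^ 2 := by positivity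
      have h3 : d * (f0 x - (1 / d) * (W x - S x - f0 x)) ^ 2
          = d * f0 x ^ 2 + (1 / d) * (W x - S x - f0 x) ^ 2
            - 2 * (f0 x * (W x - S x - f0 x)) := by
        field_simp
        ring
      have h4 : d * (f0 x + (1 / d) * (W x - S x - f0 x)) ^ 2
          = d * f0 x ^ 2 + (1 / d) * (W x - S x - f0 x) ^ 2
            + 2 * (f0 x * (W x - S x - f0 x)) := by
        field_simp
        ring
      rw [abs_le]
      constructor <;> linarith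
    have hdecomp : W x ^ 2 - S x ^ 2 - f0 x ^ 2 = 2 * (S x * (W x - S x))
        + 2 * (f0 x * (W x - S x - f0 x)) + (W x - S x - f0 x) ^ 2 := by ring
    rw [Real.norm_eq_abs, hdecomp]
    calc |2 * (S x * (W x - S x)) + 2 * (f0 x * (W x - S x - f0 x)) + (W x - S x - f0 x) ^ 2|
        ≤ |2 * (S x * (W x - S x))| + |2 * (f0 x * (W x - S x - f0 x))|
          + |(W x - S x - f0 x) ^ 2| := abs_add_three _ _ _
      _ ≤ 2 * (CD * d * ((1 / lam α t) * Q ((x - sig α t) / lam α t)))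
          + (d * f0 x ^ 2 + (1 / d) * (W x - S x - f0 x) ^ 2) + (W x - S x - f0 x) ^ 2 := by
          rw [abs_mul, abs_two, abs_of_nonneg (sq_nonneg (W x - S x - f0 x))]
          gcongr
      _ = G x := by rw [hG]; ring
  have hmeas : AEStronglyMeasurable (fun x => W x ^ 2 - S x ^ 2 - f0 x ^ 2) volume :=
    ((hWc.pow 2).aestronglyMeasurable.sub (hSc.pow 2).aestronglyMeasurable).sub (hfm.pow 2)
  have iH : Integrable (fun x => W x ^ 2 - S x ^ 2 - f0 x ^ 2) :=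
    iG.mono' hmeas (Filter.Eventually.of_forall hpt)
  have iW : Integrable (fun x => W x ^ 2) := by
    refine ((iH.add iS).add hf2).congr (Filter.Eventually.of_forall fun x => ?_)
    simp only [Pi.add_apply]
    ring
  have eH : (∫ x, (W x ^ 2 - S x ^ 2 - f0 x ^ 2))
      = (∫ x, W x ^ 2) - ((∫ y, Q y ^ 2) + ∫ x, f0 x ^ 2) := by
    have q1 := integral_sub (iW.sub iS) hf2
    have q2 := integral_sub iW iS
    simp only [Pi.sub_apply] at q1
    rw [q1, q2, eS]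
    ring
  have hfin : |(∫ x, W x ^ 2) - ((∫ y, Q y ^ 2) + ∫ x, f0 x ^ 2)| ≤ ∫ x, G x := by
    rw [← eH, ← Real.norm_eq_abs]
    exact norm_integral_le_of_norm_le iG (Filter.Eventually.of_forall hpt)
  refine hfin.trans ?_
  rw [eG]
  have hIQ : 0 ≤ ∫ y, Q y := integral_nonneg fun y => (hQp y).le
  have hIf : 0 ≤ ∫ x, f0 x ^ 2 := integral_nonneg fun x => sq_nonneg _
  have g1 : 2 * CD * d * (∫ y, Q y) ≤ 2 * CD * (∫ y, Q y) * d := by
    apply le_of_eq
    ring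
  have g2 : (1 / d + 1) * ∫ x, (W x - S x - f0 x) ^ 2 ≤ 2 * C * d := by
    calc (1 / d + 1) * ∫ x, (W x - S x - f0 x) ^ 2 ≤ (1 / d + 1) * (C * d ^ 2) := by
          gcongr
      _ = C * (d + d ^ 2) := by field_simp
      _ ≤ C * (2 * d) := by
          apply mul_le_mul_of_nonneg_left _ hC
          nlinarith
      _ = _ := by ring
  calc 2 * CD * d * (∫ y, Q y) + d * (∫ x, f0 x ^ 2)
      + (1 / d + 1) * ∫ x, (W x - S x - f0 x) ^ 2
      ≤ 2 * CD * (∫ y, Q y) * d + d * (∫ x, f0 x ^ 2) + 2 * C * d := by linarith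
    _ = _ := by ring

end L2Caux

open L2Caux in
theorem thm_L2C (hQ : S_QF) (hF : S_FS) (hC : S_CURV) (hB : S_FHB) : S_L2C := by
  intro α T0 C0 C1 T1 v f0 n h0 h1 hf hf1 hT0 hT1 hv _ hU
  have hL2 := f0_L2 h0 hf hf1
  refine ⟨hL2, ?_⟩
  obtain ⟨Tc, hTc, hcv⟩ := cv_of hC h0 h1
  obtain ⟨A, Cf, CR, hA, hCf, hE⟩ := E_bd hQ hF h0 h1 hf hf1 hU
  obtain ⟨CD, hCD0, hCD⟩ := sup_bd hB h0 h1 hf hU
  have hfm := meas_S hf
  have hf2 : Integrable (fun x => f0 x ^ 2) := (memLp_two_iff_integrable_sq hfm).mp hL2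
  have hQc : Continuous Q := hQ.1.continuous
  set C : ℝ := 2 * A * π + 2 * (Cf / (2 * α)) + 2 * CR ^ 2 with hCdef
  have hC0 : 0 ≤ C := by
    have := Real.pi_pos
    positivity
  have hmain : ∀ t ∈ Set.Ioc 0 (min T0 Tc),
      Integrable (fun x => (outr α v t x - outr α (fun _ => Q) t x - f0 x) ^ 2) ∧
      (∫ x, (outr α v t x - outr α (fun _ => Q) t x - f0 x) ^ 2)
        ≤ C * rho α t := by
    intro t ht
    have hc : Cv α t := hcv t ht.1 (ht.2.trans (min_le_right _ _))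
    have htT0 : t ≤ T0 := ht.2.trans (min_le_left _ _)
    have hmem : t ∈ Set.Ioo 0 T1 := ⟨ht.1, htT0.trans_lt hT1⟩
    obtain ⟨b1, b2⟩ := Bf_int (A := A) (Cf := Cf) (CR := CR) h0 h1 hc
    have hWc := outr_cont (α := α) hv hmem
    have hSc : Continuous (fun x => outr α (fun _ => Q) t x) := by
      have : Continuous (fun x : ℝ => Q ((x - sig α t) / lam α t)) := by fun_prop
      exact continuous_const.mul this
    have hpt : ∀ x, ‖(outr α v t x - outr α (fun _ => Q) t x - f0 x) ^ 2‖ ≤ Bf α A Cf CR t x := by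
      intro x
      rw [Real.norm_eq_abs, abs_of_nonneg (sq_nonneg _)]
      exact hE t ht.1 htT0 hc x
    have hi : Integrable (fun x => (outr α v t x - outr α (fun _ => Q) t x - f0 x) ^ 2) :=
      b1.mono' (((hWc.aestronglyMeasurable.sub hSc.aestronglyMeasurable).sub hfm).pow 2)
        (Filter.Eventually.of_forall hpt)
    refine ⟨hi, le_trans ?_ b2⟩
    exact integral_mono hi b1 fun x => hE t ht.1 htT0 hc x
  set K : ℝ := 2 * CD * (∫ y, Q y) + (∫ x, f0 x ^ 2) + 2 * C with hK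
  have hK0 : 0 ≤ K := by
    have hIQ : 0 ≤ ∫ y, Q y := integral_nonneg fun y => (hQ.2.1 y).le
    have hIf : 0 ≤ ∫ x, f0 x ^ 2 := integral_nonneg fun x => sq_nonneg _
    positivity
  have hone : ∀ t ∈ Set.Ioc 0 (min T0 Tc), 0 < rho α t ∧
      |(∫ x, outr α v t x ^ 2) - ((∫ y, Q y ^ 2) + ∫ x, f0 x ^ 2)|
        ≤ K * rho α t ^ ((1 : ℝ) / 2) := by
    intro t ht
    have hc : Cv α t := hcv t ht.1 (ht.2.trans (min_le_right _ _))
    have htT0 : t ≤ T0 := ht.2.trans (min_le_left _ _)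
    have hmem : t ∈ Set.Ioo 0 T1 := ⟨ht.1, htT0.trans_lt hT1⟩
    obtain ⟨m1, m2⟩ := hmain t ht
    exact ⟨hc.rp, mass_one hQ hv hfm hf2 hCD0 hC0 hmem hc (hCD t ht.1 htT0 hc) m1 m2⟩
  refine ⟨min T0 Tc, C + 2 * K, lt_min hT0 hTc, min_le_left _ _, ?_, ?_⟩
  · intro t ht
    refine ⟨(hmain t ht).1, (hmain t ht).2.trans ?_⟩
    exact mul_le_mul_of_nonneg_right (by linarith) (hone t ht).1.le
  · intro t ht s hs
    obtain ⟨r1, a1⟩ := hone t ht
    obtain ⟨r2, a2⟩ := hone s hs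
    rw [abs_le] at a1 a2
    have e1 : rho α t ^ ((1 : ℝ) / 2) ≤ (rho α t + rho α s) ^ ((1 : ℝ) / 2) :=
      Real.rpow_le_rpow r1.le (by linarith) (by norm_num)
    have e2 : rho α s ^ ((1 : ℝ) / 2) ≤ (rho α t + rho α s) ^ ((1 : ℝ) / 2) :=
      Real.rpow_le_rpow r2.le (by linarith) (by norm_num)
    have e3 : 0 ≤ C * (rho α t + rho α s) ^ ((1 : ℝ) / 2) :=
      mul_nonneg hC0 (Real.rpow_nonneg (by linarith) _)
    have e4 := mul_le_mul_of_nonneg_left e1 hK0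
    have e5 := mul_le_mul_of_nonneg_left e2 hK0
    rw [abs_le]
    constructor <;> nlinarith [a1.1, a1.2, a2.1, a2.2]

end Pool.Agent.Helper41.KV
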